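import Mathlib
import Pool.Agent.H96.M7.LengthArea
import Pool.Agent.H96.M7.Extent

set_option autoImplicit false

/-!
# The area theorem: `1/z + φ(z)` injective in the punctured disc gives `|φ'(0)| ≤ 1`
-/

namespace Pool.Agent.H84.SM

open Metric Set Filter Topology MeasureTheory
open scoped Real ENNReal ComplexConjugate

/-- mean value over the interval `(-π, π)` -/
theorem mean_value {F : ℂ → ℂ} (hF : DifferentiableOn ℂ F (ball 0 1)) {ρ : ℝ} (h0 : 0 < ρ)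
    (h1 : ρ < 1) : ∫ θ in Ioo (-π) π, F (circleMap 0 ρ θ) = 2 * π * F 0 := by
  have hd : DiffContOnCl ℂ F (ball 0 |ρ|) := by
    rw [abs_of_pos h0]
    exact (hF.mono (closedBall_subset_ball h1)).diffContOnCl_ball subset_rfl
  have h := hd.circleAverage
  rw [Real.circleAverage_def] at h
  have hper : Function.Periodic (fun θ : ℝ => F (circleMap 0 ρ θ)) (2 * π) := fun θ => by
    show F (circleMap 0 ρ (θ + 2 * π)) = F (circleMap 0 ρ θ)
    rw [periodic_circleMap 0 ρ θ]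
  have e1 : ∫ θ in Ioo (-π) π, F (circleMap 0 ρ θ) = ∫ θ in (0 : ℝ)..2 * π, F (circleMap 0 ρ θ) := by
    have h2 := hper.intervalIntegral_add_eq (-π) 0
    rw [zero_add] at h2
    rw [← h2, intervalIntegral.integral_of_le (by linarith [Real.pi_pos]),
      integral_Ioc_eq_integral_Ioo]
    congr 2
    ring_nf
  rw [e1]
  have h3 : (2 * π : ℝ) • ((2 * π)⁻¹ • ∫ θ in (0 : ℝ)..2 * π, F (circleMap 0 ρ θ)) =
      (2 * π : ℝ) • F 0 := by rw [h]
  rw [smul_smul, mul_inv_cancel₀ (by positivity), one_smul] at h3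
  rw [h3, Complex.real_smul]
  push_cast
  ring

/-- `1/z + φ(z)` -/
noncomputable def GG (φ : ℂ → ℂ) (z : ℂ) : ℂ := z⁻¹ + φ z

/-- the punctured disc -/
def PD : Set ℂ := {z | 0 < ‖z‖ ∧ ‖z‖ < 1}

theorem PD_open : IsOpen PD :=
  (isOpen_lt continuous_const continuous_norm).inter (isOpen_lt continuous_norm continuous_const)

theorem hasDerivAt_GG {φ : ℂ → ℂ} (hφ : DifferentiableOn ℂ φ (ball 0 1)) {z : ℂ} (hz : z ∈ PD) :
    HasDerivAt (GG φ) (-(z ^ 2)⁻¹ + deriv φ z) z := by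
  have h1 : z ≠ 0 := norm_pos_iff.1 hz.1
  have h2 : HasDerivAt φ (deriv φ z) z :=
    (hφ.differentiableAt (isOpen_ball.mem_nhds (mem_ball_zero_iff.2 hz.2))).hasDerivAt
  exact (hasDerivAt_inv h1).add h2

theorem diff_GG {φ : ℂ → ℂ} (hφ : DifferentiableOn ℂ φ (ball 0 1)) :
    DifferentiableOn ℂ (GG φ) PD := fun _ hz => (hasDerivAt_GG hφ hz).differentiableAt.differentiableWithinAt

theorem norm_cm {ρ : ℝ} (h0 : 0 < ρ) (θ : ℝ) : ‖circleMap 0 ρ θ‖ = ρ := by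
  rw [norm_circleMap_zero, abs_of_pos h0]

theorem conj_inv_sq {z : ℂ} {ρ : ℝ} (h0 : 0 < ρ) (hz : ‖z‖ = ρ) :
    conj ((z ^ 2)⁻¹) = z ^ 2 / (ρ : ℂ) ^ 4 := by
  have hz0 : z ≠ 0 := by
    intro h; rw [h, norm_zero] at hz; linarith
  have h1 : z * conj z = (ρ : ℂ) ^ 2 := by
    rw [Complex.mul_conj, Complex.normSq_eq_norm_sq, hz]
    push_cast
    ring
  have hρ : (ρ : ℂ) ≠ 0 := by exact_mod_cast h0.ne'
  have hc : conj z ≠ 0 := by simpa using hz0
  rw [map_inv₀, map_pow]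
  field_simp
  calc (ρ : ℂ) ^ 4 = ((ρ : ℂ) ^ 2) ^ 2 := by ring
    _ = (z * conj z) ^ 2 := by rw [h1]
    _ = _ := by ring

/-- **Circle inequality.** -/
theorem circle_lower {φ : ℂ → ℂ} (hφ : DifferentiableOn ℂ φ (ball 0 1)) {ρ : ℝ} (h0 : 0 < ρ)
    (h1 : ρ < 1) :
    ENNReal.ofReal (2 * π * ((ρ ^ 4)⁻¹ + ‖deriv φ 0‖ ^ 2)) ≤
      ∫⁻ θ in Ioo (-π) π, ‖deriv (GG φ) (circleMap 0 ρ θ)‖ₑ ^ 2 := by
  set c := deriv φ 0 with hc
  have hφd : DifferentiableOn ℂ (deriv φ) (ball 0 1) := hφ.deriv isOpen_ball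
  have hmem : ∀ θ : ℝ, circleMap 0 ρ θ ∈ PD := fun θ => by
    show 0 < ‖_‖ ∧ ‖_‖ < 1
    rw [norm_cm h0]
    exact ⟨h0, h1⟩
  have hmem' : ∀ θ : ℝ, circleMap 0 ρ θ ∈ ball (0 : ℂ) 1 := fun θ =>
    mem_ball_zero_iff.2 (hmem θ).2
  -- the holomorphic function of the cross terms
  set F : ℂ → ℂ := fun z => (conj c - z ^ 2 / (ρ : ℂ) ^ 4) * deriv φ z with hF
  have hFd : DifferentiableOn ℂ F (ball 0 1) := by
    apply DifferentiableOn.mul _ hφd
    fun_prop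
  have hmv := mean_value hFd h0 h1
  have hF0 : F 0 = (‖c‖ ^ 2 : ℝ) := by
    simp only [hF]
    rw [← hc]
    push_cast
    rw [← Complex.conj_mul']
    ring
  -- continuity in θ
  have hcm : Continuous (fun θ : ℝ => circleMap 0 ρ θ) := continuous_circleMap 0 ρ
  have hcF : Continuous (fun θ : ℝ => F (circleMap 0 ρ θ)) :=
    hFd.continuousOn.comp_continuous hcm hmem'
  have hcφ : Continuous (fun θ : ℝ => deriv φ (circleMap 0 ρ θ)) :=
    hφd.continuousOn.comp_continuous hcm hmem'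
  have hder : ∀ θ : ℝ, deriv (GG φ) (circleMap 0 ρ θ) =
      -((circleMap 0 ρ θ) ^ 2)⁻¹ + deriv φ (circleMap 0 ρ θ) := fun θ =>
    (hasDerivAt_GG hφ (hmem θ)).deriv
  have hcG : Continuous (fun θ : ℝ => ‖deriv (GG φ) (circleMap 0 ρ θ)‖ ^ 2) := by
    simp only [hder]
    apply Continuous.pow
    apply Continuous.norm
    apply Continuous.add _ hcφ
    apply Continuous.neg
    apply Continuous.inv₀ (hcm.pow 2)
    intro θ
    exact pow_ne_zero 2 (norm_pos_iff.1 (hmem θ).1)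
  have hint : ∀ f : ℝ → ℝ, Continuous f → IntegrableOn f (Ioo (-π) π) := fun f hf =>
    (hf.continuousOn.integrableOn_Icc (μ := volume)).mono_set Ioo_subset_Icc_self
  set L : ℝ → ℝ := fun θ => (ρ ^ 4)⁻¹ - ‖c‖ ^ 2 + 2 * (F (circleMap 0 ρ θ)).re with hL
  have hcL : Continuous L := continuous_const.add (continuous_const.mul
    (Complex.continuous_re.comp hcF))
  have hle : ∀ θ, L θ ≤ ‖deriv (GG φ) (circleMap 0 ρ θ)‖ ^ 2 := by
    intro θ
    set z := circleMap 0 ρ θ with hz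
    have hzn : ‖z‖ = ρ := norm_cm h0 θ
    rw [hder θ]
    set b := deriv φ z with hb
    have e1 : ‖-(z ^ 2)⁻¹ + b‖ ^ 2 = ‖(z ^ 2)⁻¹‖ ^ 2 + ‖b‖ ^ 2 - 2 * (conj ((z ^ 2)⁻¹) * b).re := by
      rw [← Complex.normSq_eq_norm_sq, ← Complex.normSq_eq_norm_sq, ← Complex.normSq_eq_norm_sq,
        Complex.normSq_add, Complex.normSq_neg]
      have e2 : (-(z ^ 2)⁻¹ * conj b).re = -(conj ((z ^ 2)⁻¹) * b).re := by
        have e3 : conj ((z ^ 2)⁻¹) * b = conj ((z ^ 2)⁻¹ * conj b) := by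
          rw [map_mul, Complex.conj_conj]
        rw [e3, Complex.conj_re, neg_mul, Complex.neg_re]
      rw [e2]
      ring
    have e4 : ‖(z ^ 2)⁻¹‖ ^ 2 = (ρ ^ 4)⁻¹ := by
      rw [norm_inv, norm_pow, hzn, inv_pow]
      congr 1
      ring
    have e5 : 0 ≤ ‖b‖ ^ 2 + ‖c‖ ^ 2 - 2 * (conj c * b).re := by
      have h := Complex.normSq_nonneg (b - c)
      rw [Complex.normSq_sub, Complex.normSq_eq_norm_sq, Complex.normSq_eq_norm_sq] at h
      have e6 : (b * conj c).re = (conj c * b).re := by rw [mul_comm]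
      rw [e6] at h
      exact h
    have e7 : (F z).re = (conj c * b).re - (conj ((z ^ 2)⁻¹) * b).re := by
      rw [conj_inv_sq h0 hzn]
      simp only [hF]
      rw [← hb, sub_mul, Complex.sub_re]
    rw [e1, e4]
    simp only [hL]
    rw [← hz, e7]
    linarith
  have hIL : ∫ θ in Ioo (-π) π, L θ = 2 * π * ((ρ ^ 4)⁻¹ + ‖c‖ ^ 2) := by
    have h2 : ∫ θ in Ioo (-π) π, L θ = (∫ _θ in Ioo (-π) π, ((ρ ^ 4)⁻¹ - ‖c‖ ^ 2)) +
        ∫ θ in Ioo (-π) π, 2 * (F (circleMap 0 ρ θ)).re :=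
      integral_add (hint (fun _ => (ρ ^ 4)⁻¹ - ‖c‖ ^ 2) continuous_const)
        (hint (fun θ => 2 * (F (circleMap 0 ρ θ)).re) (continuous_const.mul
        (Complex.continuous_re.comp hcF)))
    have h3 : ∫ θ in Ioo (-π) π, (F (circleMap 0 ρ θ)).re = 2 * π * ‖c‖ ^ 2 := by
      have hi : IntegrableOn (fun θ : ℝ => F (circleMap 0 ρ θ)) (Ioo (-π) π) :=
        (hcF.continuousOn.integrableOn_Icc (μ := volume)).mono_set Ioo_subset_Icc_self
      have h4 : ∫ θ in Ioo (-π) π, (F (circleMap 0 ρ θ)).re =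
          (∫ θ in Ioo (-π) π, F (circleMap 0 ρ θ)).re := integral_re hi
      rw [h4, hmv, hF0]
      have h5 : (2 : ℂ) * π * ((‖c‖ ^ 2 : ℝ) : ℂ) = ((2 * π * ‖c‖ ^ 2 : ℝ) : ℂ) := by push_cast; ring
      rw [h5, Complex.ofReal_re]
    rw [h2, integral_const_mul, h3, setIntegral_const, Real.volume_real_Ioo_of_le (by linarith [Real.pi_pos]),
      smul_eq_mul]
    ring
  calc ENNReal.ofReal (2 * π * ((ρ ^ 4)⁻¹ + ‖c‖ ^ 2)) = ENNReal.ofReal (∫ θ in Ioo (-π) π, L θ) := by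
        rw [hIL]
    _ ≤ ENNReal.ofReal (∫ θ in Ioo (-π) π, ‖deriv (GG φ) (circleMap 0 ρ θ)‖ ^ 2) :=
        ENNReal.ofReal_le_ofReal (integral_mono (hint _ hcL) (hint _ hcG) hle)
    _ = ∫⁻ θ in Ioo (-π) π, ENNReal.ofReal (‖deriv (GG φ) (circleMap 0 ρ θ)‖ ^ 2) :=
        ofReal_integral_eq_lintegral_ofReal (hint _ hcG) (ae_of_all _ fun θ => by positivity)
    _ = _ := by
        apply lintegral_congr
        intro θ
        rw [ENNReal.ofReal_pow (norm_nonneg _), ofReal_norm]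

/-- the annulus -/
def AN (ε r : ℝ) : Set ℂ := {z | ε < ‖z‖ ∧ ‖z‖ < r}

theorem AN_open (ε r : ℝ) : IsOpen (AN ε r) :=
  (isOpen_lt continuous_const continuous_norm).inter (isOpen_lt continuous_norm continuous_const)

theorem AN_sub {ε r : ℝ} (hε : 0 ≤ ε) (hr : r ≤ 1) : AN ε r ⊆ PD :=
  fun _ hz => ⟨hε.trans_lt hz.1, hz.2.trans_le hr⟩

/-- **Area of the image of an annulus, lower bound.** -/
theorem area_lower {φ : ℂ → ℂ} (hφ : DifferentiableOn ℂ φ (ball 0 1)) (hi : InjOn (GG φ) PD)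
    {ε r : ℝ} (hε : 0 < ε) (hεr : ε < r) (hr : r < 1) :
    ENNReal.ofReal (π * ((ε ^ 2)⁻¹ - (r ^ 2)⁻¹ + ‖deriv φ 0‖ ^ 2 * (r ^ 2 - ε ^ 2))) ≤
      volume (GG φ '' AN ε r) := by
  set c := ‖deriv φ 0‖ with hc
  have hsub := AN_sub hε.le hr.le
  rw [Pool.Agent.H96.M7.area_eq (AN_open ε r) ((diff_GG hφ).mono hsub) (hi.mono hsub),
    ← lintegral_indicator (AN_open ε r).measurableSet, Pool.Agent.H96.M7.polar _ _ 0]
  · have h1 : ∫⁻ ρ in Ioo ε r, ENNReal.ofReal (ρ * (2 * π * ((ρ ^ 4)⁻¹ + c ^ 2))) ≤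
        ∫⁻ ρ in Ioi (0 : ℝ), ∫⁻ θ in Ioo (-π) π, ENNReal.ofReal ρ *
          (AN ε r).indicator (fun z => ‖deriv (GG φ) z‖ₑ ^ 2) (circleMap 0 ρ θ) := by
      refine le_trans ?_ (lintegral_mono_set (s := Ioo ε r) (fun x hx => hε.trans hx.1))
      apply setLIntegral_mono_ae' measurableSet_Ioo
      filter_upwards with ρ hρ
      have hρ0 : 0 < ρ := hε.trans hρ.1
      have h2 : ∀ θ : ℝ, (AN ε r).indicator (fun z => ‖deriv (GG φ) z‖ₑ ^ 2) (circleMap 0 ρ θ) =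
          ‖deriv (GG φ) (circleMap 0 ρ θ)‖ₑ ^ 2 := by
        intro θ
        rw [indicator_of_mem]
        show ε < ‖_‖ ∧ ‖_‖ < r
        rw [norm_cm hρ0]
        exact hρ
      simp only [h2]
      rw [lintegral_const_mul' _ _ ENNReal.ofReal_ne_top, ENNReal.ofReal_mul hρ0.le]
      gcongr
      exact circle_lower hφ hρ0 (hρ.2.trans hr)
    refine le_trans (le_of_eq ?_) h1
    have hcont : ContinuousOn (fun ρ : ℝ => ρ * (2 * π * ((ρ ^ 4)⁻¹ + c ^ 2))) (Icc ε r) := by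
      intro x hx
      have hx0 : x ≠ 0 := (hε.trans_le hx.1).ne'
      apply ContinuousAt.continuousWithinAt
      have : ContinuousAt (fun ρ : ℝ => (ρ ^ 4)⁻¹) x :=
        (continuousAt_id.pow 4).inv₀ (pow_ne_zero 4 hx0)
      exact continuousAt_id.mul (continuousAt_const.mul (this.add continuousAt_const))
    rw [← ofReal_integral_eq_lintegral_ofReal]
    · congr 1
      rw [← integral_Ioc_eq_integral_Ioo, ← intervalIntegral.integral_of_le hεr.le]
      rw [intervalIntegral.integral_eq_sub_of_hasDerivAt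
        (f := fun ρ : ℝ => π * (-(ρ ^ 2)⁻¹ + c ^ 2 * ρ ^ 2))]
      · ring
      · intro x hx
        rw [uIcc_of_le hεr.le] at hx
        have hx0 : x ≠ 0 := (hε.trans_le hx.1).ne'
        have h3 : HasDerivAt (fun ρ : ℝ => ρ ^ 2) (2 * x) x := by
          simpa using hasDerivAt_pow 2 x
        have h4 : HasDerivAt (fun ρ : ℝ => π * (-(ρ ^ 2)⁻¹ + c ^ 2 * ρ ^ 2))
            (π * (-(-(2 * x) / (x ^ 2) ^ 2) + c ^ 2 * (2 * x))) x :=
          (((h3.inv (pow_ne_zero 2 hx0)).neg).add (h3.const_mul (c ^ 2))).const_mul π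
        refine h4.congr_deriv ?_
        field_simp
      · apply ContinuousOn.intervalIntegrable
        rw [uIcc_of_le hεr.le]
        exact hcont
    · exact (hcont.integrableOn_Icc (μ := volume)).mono_set Ioo_subset_Icc_self
    · filter_upwards [ae_restrict_mem measurableSet_Ioo] with x hx
      have : 0 < x := hε.trans hx.1
      positivity
  · exact ((measurable_deriv _).enorm.pow_const 2).indicator (AN_open ε r).measurableSet

end Pool.Agent.H84.SM
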