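import Mathlib
import Pool.Agent.H84.SM.Area
import Pool.Agent.H83.Lo.Inj

set_option autoImplicit false

/-!
# The area theorem, upper bound and conclusion
-/

namespace Pool.Agent.H84.SM

open Metric Set Filter Topology MeasureTheory
open scoped Real ENNReal ComplexConjugate

/-- the real linear map `u ↦ u / s + c s conj u` -/
noncomputable def LL (c : ℂ) (s : ℝ) : ℂ →ₗ[ℝ] ℂ where
  toFun u := (s : ℂ)⁻¹ * u + c * s * conj u
  map_add' u v := by simp only [map_add]; ring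
  map_smul' t u := by
    simp only [Complex.real_smul, map_mul, Complex.conj_ofReal, RingHom.id_apply]
    ring

theorem LL_apply (c : ℂ) (s : ℝ) (u : ℂ) : LL c s u = (s : ℂ)⁻¹ * u + c * s * conj u := rfl

theorem LL_det (c : ℂ) (s : ℝ) : LinearMap.det (LL c s) = s⁻¹ ^ 2 - ‖c * s‖ ^ 2 := by
  rw [← LinearMap.det_toMatrix Complex.basisOneI, Matrix.det_fin_two]
  simp only [LinearMap.toMatrix_apply, Complex.coe_basisOneI, Complex.coe_basisOneI_repr, LL_apply,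
    Matrix.cons_val_zero, Matrix.cons_val_one]
  simp only [map_one, mul_one, Complex.conj_I, ← Complex.normSq_eq_norm_sq, Complex.normSq_apply]
  simp
  ring

theorem LL_lower (c : ℂ) {s : ℝ} (hs : 0 < s) (h : ‖c‖ * s ^ 2 ≤ 1 / 2) (u : ℂ) :
    ‖u‖ ≤ 2 * s * ‖LL c s u‖ := by
  have h1 : ‖(s : ℂ)⁻¹ * u‖ - ‖c * s * conj u‖ ≤ ‖LL c s u‖ := by
    have := norm_sub_norm_le ((s : ℂ)⁻¹ * u) (-(c * s * conj u))
    rw [norm_neg, sub_neg_eq_add] at this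
    exact this
  rw [norm_mul, norm_mul, norm_mul, norm_inv, Complex.norm_real, Complex.norm_conj,
    Real.norm_of_nonneg hs.le] at h1
  have h2 : s * (s⁻¹ * ‖u‖ - ‖c‖ * s * ‖u‖) ≤ s * ‖LL c s u‖ := by gcongr
  have h3 : s * (s⁻¹ * ‖u‖ - ‖c‖ * s * ‖u‖) = ‖u‖ - (‖c‖ * s ^ 2) * ‖u‖ := by
    field_simp
  rw [h3] at h2
  nlinarith [norm_nonneg u]

theorem LL_upper (c : ℂ) {s : ℝ} (hs : 0 < s) (u : ℂ) :
    ‖LL c s u‖ ≤ (s⁻¹ + ‖c‖ * s) * ‖u‖ := by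
  rw [LL_apply]
  refine (norm_add_le _ _).trans (le_of_eq ?_)
  rw [norm_mul, norm_mul, norm_mul, norm_inv, Complex.norm_real, Complex.norm_conj,
    Real.norm_of_nonneg hs.le]
  ring

theorem LL_surj (c : ℂ) {s : ℝ} (hs : 0 < s) (h : ‖c‖ * s ^ 2 ≤ 1 / 2) :
    Function.Surjective (LL c s) := by
  apply LinearMap.surjective_of_injective
  rw [← LinearMap.ker_eq_bot, LinearMap.ker_eq_bot']
  intro u hu
  have h1 := LL_lower c hs h u
  rw [hu, norm_zero, mul_zero] at h1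
  exact norm_le_zero_iff.1 h1

theorem LL_cont (c : ℂ) (s : ℝ) : Continuous (LL c s) := LinearMap.continuous_of_finiteDimensional _

theorem LL_vol (c : ℂ) {s : ℝ} (hs : 0 < s) (h : ‖c‖ * s ^ 2 ≤ 1 / 2) (b : ℂ) :
    volume ((fun u => b + LL c s u) '' closedBall 0 1) ≤ ENNReal.ofReal (π * (s ^ 2)⁻¹) := by
  have h1 : (fun u => b + LL c s u) '' closedBall 0 1 = (fun w => b + w) '' (LL c s '' closedBall 0 1) := by
    rw [image_image]
  rw [h1, image_add_left, measure_preimage_add, Measure.addHaar_image_linearMap, LL_det,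
    Complex.volume_closedBall]
  have h2 : |s⁻¹ ^ 2 - ‖c * (s : ℂ)‖ ^ 2| ≤ (s ^ 2)⁻¹ := by
    have h3 : ‖c * (s : ℂ)‖ = ‖c‖ * s := by
      rw [norm_mul, Complex.norm_real, Real.norm_of_nonneg hs.le]
    rw [h3, inv_pow, abs_of_nonneg]
    · linarith [sq_nonneg (‖c‖ * s)]
    · rw [sub_nonneg, ← one_div, le_div_iff₀ (by positivity)]
      nlinarith [mul_nonneg (norm_nonneg c) (sq_nonneg s)]
  calc ENNReal.ofReal |s⁻¹ ^ 2 - ‖c * (s : ℂ)‖ ^ 2| * (ENNReal.ofReal 1 ^ 2 * NNReal.pi)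
      ≤ ENNReal.ofReal ((s ^ 2)⁻¹) * (ENNReal.ofReal 1 ^ 2 * NNReal.pi) := by
        gcongr
    _ = ENNReal.ofReal (π * (s ^ 2)⁻¹) := by
        rw [ENNReal.ofReal_one, one_pow, one_mul, ENNReal.ofReal_mul Real.pi_pos.le, mul_comm]
        congr 1
        rw [← NNReal.coe_real_pi, ENNReal.ofReal_coe_nnreal]

theorem taylor2 {φ : ℂ → ℂ} (hφ : DifferentiableOn ℂ φ (ball 0 1)) :
    ∃ M : ℝ, 1 ≤ M ∧ ∀ z : ℂ, ‖z‖ ≤ 1 / 2 → ‖φ z - φ 0 - deriv φ 0 * z‖ ≤ M * ‖z‖ ^ 2 := by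
  have hb : ball (0 : ℂ) 1 ∈ 𝓝 (0 : ℂ) := ball_mem_nhds 0 one_pos
  have h1 : DifferentiableOn ℂ (dslope φ 0) (ball 0 1) := (Complex.differentiableOn_dslope hb).2 hφ
  have h2 : DifferentiableOn ℂ (dslope (dslope φ 0) 0) (ball 0 1) :=
    (Complex.differentiableOn_dslope hb).2 h1
  have h3 : ContinuousOn (dslope (dslope φ 0) 0) (closedBall 0 (1 / 2)) :=
    h2.continuousOn.mono (closedBall_subset_ball (by norm_num))
  obtain ⟨M, hM⟩ := (isCompact_closedBall (0 : ℂ) (1 / 2)).exists_bound_of_continuousOn h3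
  refine ⟨max M 1, le_max_right _ _, fun z hz => ?_⟩
  have e1 := sub_smul_dslope φ 0 z
  have e2 := sub_smul_dslope (dslope φ 0) 0 z
  rw [dslope_same] at e2
  simp only [sub_zero, smul_eq_mul] at e1 e2
  have e3 : φ z - φ 0 - deriv φ 0 * z = z ^ 2 * dslope (dslope φ 0) 0 z := by
    rw [← e1]
    linear_combination z * (-e2)
  rw [e3, norm_mul, norm_pow, mul_comm]
  gcongr
  exact (hM z (mem_closedBall_zero_iff.2 hz)).trans (le_max_left _ _)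

theorem ext_preconn : IsPreconnected {u : ℂ | 1 < ‖u‖} := by
  have h : {u : ℂ | 1 < ‖u‖} =
      (fun p : ℝ × ℝ => (p.1 : ℂ) * Complex.exp (p.2 * Complex.I)) '' (Ioi 1 ×ˢ univ) := by
    ext u
    simp only [mem_ofPred_eq, mem_image, mem_prod, mem_Ioi, mem_univ, and_true, Prod.exists]
    constructor
    · intro hu
      exact ⟨‖u‖, u.arg, hu, Complex.norm_mul_exp_arg_mul_I u⟩
    · rintro ⟨r, t, hr, rfl⟩
      rw [norm_mul, Complex.norm_exp_ofReal_mul_I, Complex.norm_real, mul_one,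
        Real.norm_of_nonneg (by linarith)]
      exact hr
  rw [h]
  exact (isPreconnected_Ioi.prod isPreconnected_univ).image _ (by fun_prop)

section Upper

variable {φ : ℂ → ℂ} (hφ : DifferentiableOn ℂ φ (ball 0 1)) (hi : InjOn (GG φ) PD)
  {M ε : ℝ} (hM1 : 1 ≤ M)
  (hM : ∀ z : ℂ, ‖z‖ ≤ 1 / 2 → ‖φ z - φ 0 - deriv φ 0 * z‖ ≤ M * ‖z‖ ^ 2)
  (hε : 0 < ε) (hε2 : ε ≤ 1 / 2) (hε3 : 4 * ‖deriv φ 0‖ * ε ^ 2 ≤ 1 / 2)
  (hε4 : 4 * M * ε ^ 3 ≤ 1 / 4)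

include hM hM1 in
theorem GG_far (R : ℝ) : ∃ δ > 0, ∀ z : ℂ, 0 < ‖z‖ → ‖z‖ < δ → R < ‖GG φ z - φ 0‖ := by
  refine ⟨min (1 / 2) (1 / (|R| + ‖deriv φ 0‖ + M + 1)), by positivity, fun z hz0 hz => ?_⟩
  have hz1 : ‖z‖ ≤ 1 / 2 := hz.le.trans (min_le_left _ _)
  have hz2 := hz.trans_le (min_le_right _ _)
  have h1 := hM z hz1
  have hden : 0 < |R| + ‖deriv φ 0‖ + M + 1 := by positivity
  have h2 : |R| + ‖deriv φ 0‖ + M + 1 < ‖z‖⁻¹ := by
    rw [lt_inv_comm₀ hden hz0, ← one_div]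
    exact hz2
  have h3 : ‖z⁻¹‖ - ‖-(deriv φ 0 * z + (φ z - φ 0 - deriv φ 0 * z))‖ ≤ ‖GG φ z - φ 0‖ := by
    have := norm_sub_norm_le z⁻¹ (-(deriv φ 0 * z + (φ z - φ 0 - deriv φ 0 * z)))
    refine this.trans (le_of_eq ?_)
    congr 1
    unfold GG
    ring
  have h4 : ‖-(deriv φ 0 * z + (φ z - φ 0 - deriv φ 0 * z))‖ ≤ ‖deriv φ 0‖ + M := by
    rw [norm_neg]
    refine (norm_add_le _ _).trans (add_le_add ?_ ?_)
    · rw [norm_mul]
      nlinarith [norm_nonneg (deriv φ 0), norm_nonneg z]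
    · refine h1.trans ?_
      have : ‖z‖ ^ 2 ≤ 1 := by nlinarith [norm_nonneg z]
      nlinarith
  rw [norm_inv] at h3
  have h5 : R ≤ |R| := le_abs_self R
  linarith

include hM hε hε2 hε3 hε4 hM1 in
theorem sphere_bound {z : ℂ} (hz : ‖z‖ = ε) {u : ℂ}
    (hu : GG φ z = φ 0 + LL (deriv φ 0) (ε * (1 - 4 * M * ε ^ 3)) u) : ‖u‖ ≤ 1 := by
  set c := deriv φ 0 with hc
  set η := 4 * M * ε ^ 3 with hη
  have hη0 : 0 < η := by positivity
  set s : ℝ := ε * (1 - η) with hs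
  have hs0 : 0 < s := by rw [hs]; apply mul_pos hε; linarith
  have hsε : s ≤ ε := by rw [hs]; nlinarith
  have hcs : ‖c‖ * s ^ 2 ≤ 1 / 2 := by
    have h1 : s ^ 2 ≤ ε ^ 2 := by nlinarith
    have h2 := norm_nonneg c
    nlinarith
  have hz0 : z ≠ 0 := by
    intro h; rw [h, norm_zero] at hz; linarith
  have hεc : (ε : ℂ) ≠ 0 := by exact_mod_cast hε.ne'
  have hsc : (s : ℂ) ≠ 0 := by exact_mod_cast hs0.ne'
  set v : ℂ := ε * z⁻¹ with hv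
  have hvn : ‖v‖ = 1 := by
    rw [hv, norm_mul, norm_inv, hz, Complex.norm_real, Real.norm_of_nonneg hε.le,
      mul_inv_cancel₀ hε.ne']
  have hvc : conj v = z / ε := by
    have h1 : z * conj z = (ε : ℂ) ^ 2 := by
      rw [Complex.mul_conj, Complex.normSq_eq_norm_sq, hz]
      push_cast
      ring
    have hc' : conj z ≠ 0 := by simpa using hz0
    rw [hv, map_mul, map_inv₀, Complex.conj_ofReal]
    field_simp
    rw [← h1]
    ring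
  set δ : ℂ := u - ((s / ε : ℝ) : ℂ) * v with hδ
  have hLδ : LL c s δ = c * ((ε ^ 2 - s ^ 2 : ℝ) : ℂ) / ε * conj v + (φ z - φ 0 - c * z) := by
    have h1 : LL c s δ = LL c s u - LL c s (((s / ε : ℝ) : ℂ) * v) := by rw [hδ, map_sub]
    have h2 : LL c s u = GG φ z - φ 0 := by rw [hu]; ring
    rw [h1, h2, LL_apply, map_mul, Complex.conj_ofReal, hvc]
    unfold GG
    rw [hv]
    push_cast
    field_simp
    ring
  have hLn : ‖LL c s δ‖ ≤ 2 * ‖c‖ * (ε - s) + M * ε ^ 2 := by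
    rw [hLδ]
    refine (norm_add_le _ _).trans (add_le_add ?_ ?_)
    · rw [norm_mul, norm_div, norm_mul, Complex.norm_conj, hvn, Complex.norm_real, Complex.norm_real,
        Real.norm_of_nonneg hε.le, mul_one, Real.norm_of_nonneg (by nlinarith), div_le_iff₀ hε]
      have : ε ^ 2 - s ^ 2 ≤ 2 * (ε - s) * ε := by nlinarith
      have h2 := norm_nonneg c
      nlinarith
    · have := hM z (by rw [hz]; exact hε2)
      rw [hz] at this
      exact this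
  have hδn := LL_lower c hs0 hcs δ
  have hεs : ε - s = ε * η := by rw [hs]; ring
  have h3 : ‖δ‖ ≤ 2 * ε * (2 * ‖c‖ * (ε * η) + M * ε ^ 2) := by
    rw [hεs] at hLn
    refine hδn.trans ?_
    have h0 : 0 ≤ ‖LL c s δ‖ := norm_nonneg _
    calc 2 * s * ‖LL c s δ‖ ≤ 2 * ε * ‖LL c s δ‖ := by gcongr
      _ ≤ _ := by gcongr
  have h4 : ‖u‖ ≤ s / ε + ‖δ‖ := by
    have h5 : u = ((s / ε : ℝ) : ℂ) * v + δ := by rw [hδ]; ring
    calc ‖u‖ = ‖((s / ε : ℝ) : ℂ) * v + δ‖ := by rw [← h5]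
      _ ≤ ‖((s / ε : ℝ) : ℂ) * v‖ + ‖δ‖ := norm_add_le _ _
      _ = _ := by
        rw [norm_mul, hvn, Complex.norm_real, Real.norm_of_nonneg (by positivity), mul_one]
  have h6 : s / ε = 1 - η := by rw [hs]; field_simp
  rw [h6] at h4
  have h7 : 2 * ε * (2 * ‖c‖ * (ε * η) + M * ε ^ 2) = (4 * ‖c‖ * ε ^ 2) * η + η / 2 := by
    rw [hη]; ring
  rw [h7] at h3
  have h8 : (4 * ‖c‖ * ε ^ 2) * η ≤ 1 / 2 * η := by gcongr
  linarith

include hφ hi hM hε hε2 hε3 hε4 hM1 in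
theorem ext_subset : (fun u => φ 0 + LL (deriv φ 0) (ε * (1 - 4 * M * ε ^ 3)) u) '' {u : ℂ | 1 < ‖u‖} ⊆
    GG φ '' {z | 0 < ‖z‖ ∧ ‖z‖ < ε} := by
  set c := deriv φ 0 with hc
  set s : ℝ := ε * (1 - 4 * M * ε ^ 3) with hs
  have hs0 : 0 < s := by rw [hs]; apply mul_pos hε; linarith
  have hsε : s ≤ ε := by
    rw [hs]
    have : 0 ≤ 4 * M * ε ^ 3 := by positivity
    nlinarith
  have hcs : ‖c‖ * s ^ 2 ≤ 1 / 2 := by
    have h1 : s ^ 2 ≤ ε ^ 2 := by nlinarith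
    have h2 := norm_nonneg c
    nlinarith
  have hTP : {z : ℂ | 0 < ‖z‖ ∧ ‖z‖ ≤ ε} ⊆ PD := fun z hz => ⟨hz.1, hz.2.trans_lt (by linarith)⟩
  have hcontG : ContinuousOn (GG φ) PD := (diff_GG hφ).continuousOn
  -- the image of the closed punctured disc is closed
  have hclosed : IsOpen (GG φ '' {z | 0 < ‖z‖ ∧ ‖z‖ ≤ ε})ᶜ := by
    rw [isOpen_iff_mem_nhds]
    intro w hw
    obtain ⟨δ, hδ, hδ2⟩ := GG_far hM1 hM (‖w - φ 0‖ + 1)
    have hcomp : IsCompact {z : ℂ | δ ≤ ‖z‖ ∧ ‖z‖ ≤ ε} := by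
      have : {z : ℂ | δ ≤ ‖z‖ ∧ ‖z‖ ≤ ε} = closedBall 0 ε ∩ {z | δ ≤ ‖z‖} := by
        ext z
        simp only [mem_ofPred_eq, mem_inter_iff, mem_closedBall_zero_iff]
        exact and_comm
      rw [this]
      exact (isCompact_closedBall 0 ε).inter_right (isClosed_le continuous_const continuous_norm)
    have hsub : {z : ℂ | δ ≤ ‖z‖ ∧ ‖z‖ ≤ ε} ⊆ {z | 0 < ‖z‖ ∧ ‖z‖ ≤ ε} := fun z hz =>
      ⟨hδ.trans_le hz.1, hz.2⟩
    have h1 : IsClosed (GG φ '' {z : ℂ | δ ≤ ‖z‖ ∧ ‖z‖ ≤ ε}) :=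
      (hcomp.image_of_continuousOn (hcontG.mono (hsub.trans hTP))).isClosed
    have h2 : w ∈ (GG φ '' {z : ℂ | δ ≤ ‖z‖ ∧ ‖z‖ ≤ ε})ᶜ := fun h => hw (image_mono hsub h)
    filter_upwards [h1.isOpen_compl.mem_nhds h2, ball_mem_nhds w one_pos] with y hy1 hy2
    rintro ⟨z, ⟨hz0, hz1⟩, rfl⟩
    by_cases h3 : δ ≤ ‖z‖
    · exact hy1 ⟨z, ⟨h3, hz1⟩, rfl⟩
    · have h4 := hδ2 z hz0 (not_le.1 h3)
      rw [mem_ball, dist_eq_norm] at hy2
      have h5 : ‖GG φ z - φ 0‖ ≤ ‖GG φ z - w‖ + ‖w - φ 0‖ := by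
        calc ‖GG φ z - φ 0‖ = ‖(GG φ z - w) + (w - φ 0)‖ := by congr 1; ring
          _ ≤ _ := norm_add_le _ _
      linarith
  -- the image of the open punctured disc is open
  have hopenT : IsOpen {z : ℂ | 0 < ‖z‖ ∧ ‖z‖ < ε} :=
    (isOpen_lt continuous_const continuous_norm).inter (isOpen_lt continuous_norm continuous_const)
  have hopen : IsOpen (GG φ '' {z | 0 < ‖z‖ ∧ ‖z‖ < ε}) := by
    rw [isOpen_iff_mem_nhds]
    rintro _ ⟨z, hz, rfl⟩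
    have hzP : z ∈ PD := ⟨hz.1, hz.2.trans (by linarith)⟩
    have hd := Pool.Agent.H83.Lo.deriv_ne_zero PD_open (diff_GG hφ) hi hzP
    have han : AnalyticAt ℂ (GG φ) z := (diff_GG hφ).analyticAt (PD_open.mem_nhds hzP)
    have hst := han.hasStrictDerivAt
    have hmap := hst.map_nhds_eq hd
    rw [← hmap]
    exact image_mem_map (hopenT.mem_nhds hz)
  have hpre : IsPreconnected ((fun u => φ 0 + LL c s u) '' {u : ℂ | 1 < ‖u‖}) :=
    ext_preconn.image _ (continuous_const.add (LL_cont c s)).continuousOn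
  refine hpre.subset_left_of_subset_union hopen hclosed ?_ ?_ ?_
  · rw [Set.disjoint_left]
    rintro w ⟨z, hz, rfl⟩ hw
    exact hw ⟨z, ⟨hz.1, hz.2.le⟩, rfl⟩
  · rintro w ⟨u, hu, rfl⟩
    by_cases hw : φ 0 + LL c s u ∈ GG φ '' {z | 0 < ‖z‖ ∧ ‖z‖ ≤ ε}
    · left
      obtain ⟨z, hz, hzw⟩ := hw
      refine ⟨z, ⟨hz.1, lt_of_le_of_ne hz.2 ?_⟩, hzw⟩
      intro h
      have h1 := sphere_bound hM1 hM hε hε2 hε3 hε4 h hzw
      exact absurd hu (not_lt.2 h1)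
    · exact Or.inr hw
  · obtain ⟨δ, hδ, hδ2⟩ := GG_far hM1 hM (s⁻¹ + ‖c‖ * s)
    set t : ℝ := min δ ε / 2 with ht
    have ht0 : 0 < t := by rw [ht]; positivity
    have htδ : t < δ := by
      have := min_le_left δ ε
      rw [ht]; linarith
    have htε : t < ε := by
      have := min_le_right δ ε
      rw [ht]; linarith
    have htn : ‖(t : ℂ)‖ = t := by rw [Complex.norm_real, Real.norm_of_nonneg ht0.le]
    obtain ⟨u, hu⟩ := LL_surj c hs0 hcs (GG φ t - φ 0)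
    refine ⟨GG φ t, ⟨u, ?_, ?_⟩, ⟨t, ⟨by rw [htn]; exact ht0, by rw [htn]; exact htε⟩, rfl⟩⟩
    · have h1 := hδ2 t (by rw [htn]; exact ht0) (by rw [htn]; exact htδ)
      rw [← hu] at h1
      have h2 := LL_upper c hs0 u
      have h3 : 0 < s⁻¹ + ‖c‖ * s := by positivity
      by_contra hcon
      have h4 : ‖u‖ ≤ 1 := not_lt.1 hcon
      have h5 : (s⁻¹ + ‖c‖ * s) * ‖u‖ ≤ (s⁻¹ + ‖c‖ * s) * 1 := by gcongr
      linarith
    · show φ 0 + LL c s u = GG φ t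
      rw [hu]
      ring

include hφ hi hM hε hε2 hε3 hε4 hM1 in
/-- **Area of the image of an annulus, upper bound.** -/
theorem area_upper {r : ℝ} (hr : r ≤ 1) : volume (GG φ '' AN ε r) ≤
    ENNReal.ofReal (π * ((ε * (1 - 4 * M * ε ^ 3)) ^ 2)⁻¹) := by
  set c := deriv φ 0 with hc
  set s : ℝ := ε * (1 - 4 * M * ε ^ 3) with hs
  have hs0 : 0 < s := by rw [hs]; apply mul_pos hε; linarith
  have hsε : s ≤ ε := by
    rw [hs]
    have : 0 ≤ 4 * M * ε ^ 3 := by positivity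
    nlinarith
  have hcs : ‖c‖ * s ^ 2 ≤ 1 / 2 := by
    have h1 : s ^ 2 ≤ ε ^ 2 := by nlinarith
    have h2 := norm_nonneg c
    nlinarith
  refine le_trans (measure_mono ?_) (LL_vol c hs0 hcs (φ 0))
  rintro _ ⟨z, hz, rfl⟩
  obtain ⟨u, hu⟩ := LL_surj c hs0 hcs (GG φ z - φ 0)
  have hu2 : φ 0 + LL c s u = GG φ z := by rw [hu]; ring
  refine ⟨u, ?_, hu2⟩
  rw [mem_closedBall_zero_iff]
  by_contra hcon
  obtain ⟨z', hz', hzz⟩ := ext_subset hφ hi hM1 hM hε hε2 hε3 hε4 ⟨u, not_le.1 hcon, rfl⟩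
  have h1 : z' = z := by
    apply hi ⟨hz'.1, hz'.2.trans (by linarith)⟩ ⟨hε.trans hz.1, hz.2.trans_le hr⟩
    rw [hzz]
    exact hu2
  rw [h1] at hz'
  exact absurd hz.1 (not_lt.2 hz'.2.le)

end Upper

/-- **Area theorem.** -/
theorem area_thm {φ : ℂ → ℂ} (hφ : DifferentiableOn ℂ φ (ball 0 1)) (hi : InjOn (GG φ) PD) :
    ‖deriv φ 0‖ ≤ 1 := by
  obtain ⟨M, hM1, hM⟩ := taylor2 hφ
  set c := ‖deriv φ 0‖ with hc
  have hc0 : 0 ≤ c := norm_nonneg _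
  have key : ∀ r : ℝ, 0 < r → r < 1 → c ^ 2 * r ^ 2 ≤ (r ^ 2)⁻¹ := by
    intro r hr0 hr1
    have hev : ∀ᶠ ε in 𝓝[>] (0 : ℝ), c ^ 2 * (r ^ 2 - ε ^ 2) ≤ (r ^ 2)⁻¹ + 16 * M * ε := by
      have h1 : ∀ᶠ ε in 𝓝[>] (0 : ℝ), ε ≤ 1 / 2 :=
        mem_nhdsWithin_of_mem_nhds (Iic_mem_nhds (by norm_num))
      have h2 : ∀ᶠ ε in 𝓝[>] (0 : ℝ), 4 * c * ε ^ 2 ≤ 1 / 2 := by
        have : Tendsto (fun ε : ℝ => 4 * c * ε ^ 2) (𝓝[>] 0) (𝓝 (4 * c * 0 ^ 2)) :=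
          (Continuous.tendsto (by fun_prop) 0).mono_left nhdsWithin_le_nhds
        rw [zero_pow (by norm_num), mul_zero] at this
        exact this.eventually (Iic_mem_nhds (by norm_num))
      have h3 : ∀ᶠ ε in 𝓝[>] (0 : ℝ), 4 * M * ε ^ 3 ≤ 1 / 4 := by
        have : Tendsto (fun ε : ℝ => 4 * M * ε ^ 3) (𝓝[>] 0) (𝓝 (4 * M * 0 ^ 3)) :=
          (Continuous.tendsto (by fun_prop) 0).mono_left nhdsWithin_le_nhds
        rw [zero_pow (by norm_num), mul_zero] at this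
        exact this.eventually (Iic_mem_nhds (by norm_num))
      have h4 : ∀ᶠ ε in 𝓝[>] (0 : ℝ), ε < r := mem_nhdsWithin_of_mem_nhds (Iio_mem_nhds hr0)
      filter_upwards [h1, h2, h3, h4, self_mem_nhdsWithin] with ε e1 e2 e3 e4 e5
      replace e5 : 0 < ε := e5
      have h5 := (area_lower hφ hi e5 e4 hr1).trans
        (area_upper hφ hi hM1 hM e5 e1 e2 e3 hr1.le)
      have hs0 : 0 < ε * (1 - 4 * M * ε ^ 3) := by apply mul_pos e5; linarith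
      rw [ENNReal.ofReal_le_ofReal_iff (by positivity)] at h5
      have h6 := le_of_mul_le_mul_left h5 Real.pi_pos
      rw [← hc] at h6
      have h7 : ((ε * (1 - 4 * M * ε ^ 3)) ^ 2)⁻¹ ≤ (ε ^ 2)⁻¹ + 16 * M * ε := by
        set x := 4 * M * ε ^ 3 with hx
        have hx0 : 0 ≤ x := by positivity
        have h8 : (ε ^ 2)⁻¹ + 16 * M * ε = (1 + 4 * x) / ε ^ 2 := by
          rw [hx]; field_simp; ring
        rw [h8, ← one_div, div_le_div_iff₀ (by positivity) (by positivity), one_mul, mul_pow]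
        have h9 : 1 ≤ (1 + 4 * x) * (1 - x) ^ 2 := by nlinarith [mul_nonneg hx0 hx0]
        nlinarith [sq_nonneg ε, mul_pos e5 e5]
      linarith
    have hlim : Tendsto (fun ε : ℝ => c ^ 2 * (r ^ 2 - ε ^ 2)) (𝓝[>] 0) (𝓝 (c ^ 2 * (r ^ 2 - 0 ^ 2))) :=
      (Continuous.tendsto (by fun_prop) 0).mono_left nhdsWithin_le_nhds
    have hlim2 : Tendsto (fun ε : ℝ => (r ^ 2)⁻¹ + 16 * M * ε) (𝓝[>] 0) (𝓝 ((r ^ 2)⁻¹ + 16 * M * 0)) :=
      (Continuous.tendsto (by fun_prop) 0).mono_left nhdsWithin_le_nhds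
    have h := le_of_tendsto_of_tendsto hlim hlim2 hev
    simpa using h
  have hlim : Tendsto (fun r : ℝ => c ^ 2 * r ^ 2 * r ^ 2) (𝓝[<] 1) (𝓝 (c ^ 2 * 1 ^ 2 * 1 ^ 2)) :=
    (Continuous.tendsto (by fun_prop) 1).mono_left nhdsWithin_le_nhds
  have h1 : ∀ᶠ r in 𝓝[<] (1 : ℝ), c ^ 2 * r ^ 2 * r ^ 2 ≤ 1 := by
    have h2 : ∀ᶠ r in 𝓝[<] (1 : ℝ), 0 < r := mem_nhdsWithin_of_mem_nhds (Ioi_mem_nhds one_pos)
    filter_upwards [h2, self_mem_nhdsWithin] with r hr hr1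
    have h3 := key r hr hr1
    calc c ^ 2 * r ^ 2 * r ^ 2 ≤ (r ^ 2)⁻¹ * r ^ 2 := by gcongr
      _ = 1 := inv_mul_cancel₀ (by positivity)
  have h2 := le_of_tendsto hlim h1
  have h3 : c ^ 2 ≤ 1 := by simpa using h2
  exact (sq_le_one_iff₀ hc0).1 h3

end Pool.Agent.H84.SM
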