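import Mathlib
import Pool.Agent.H84.SM.Area2
import Pool.Agent.H83.Lo.Gen

set_option autoImplicit false

/-!
# Bieberbach's inequality for the second coefficient and the Koebe quarter theorem
-/

namespace Pool.Agent.H84.SM

open Metric Set Filter Topology
open scoped Real ComplexConjugate

/-- **Bieberbach.** `z k(z)` injective in the disc, `k(0) = 1`: `|k'(0)| ≤ 2`. -/
theorem bieberbach {k : ℂ → ℂ} (hk : DifferentiableOn ℂ k (ball 0 1)) (hk0 : k 0 = 1)
    (hi : InjOn (fun z => z * k z) (ball 0 1)) : ‖deriv k 0‖ ≤ 2 := by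
  have h0 : (0 : ℂ) ∈ ball (0 : ℂ) 1 := mem_ball_self one_pos
  have hb : ball (0 : ℂ) 1 ∈ 𝓝 (0 : ℂ) := ball_mem_nhds 0 one_pos
  -- `k` has no zeros
  have hne : ∀ z ∈ ball (0 : ℂ) 1, k z ≠ 0 := by
    intro z hz h
    by_cases hz0 : z = 0
    · rw [hz0, hk0] at h
      exact one_ne_zero h
    · apply hz0
      apply hi hz h0
      simp [h]
  -- square root of `1 / k`
  obtain ⟨L, hL, hL2⟩ := Pool.Agent.H83.Lo.exists_log_convex isOpen_ball (convex_ball (0 : ℂ) 1) hk hne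
  set q : ℂ → ℂ := fun z => Complex.exp (-(L z - L 0) / 2) with hq
  have hqd : DifferentiableOn ℂ q (ball 0 1) := by
    apply DifferentiableOn.cexp
    exact ((hL.sub (differentiableOn_const _)).neg).div_const 2
  have hq0 : q 0 = 1 := by simp [hq]
  have hqk : ∀ z ∈ ball (0 : ℂ) 1, q z ^ 2 * k z = 1 := by
    intro z hz
    have e0 : Complex.exp (L 0) = 1 := by rw [hL2 0 h0, hk0]
    rw [hq, ← hL2 z hz]
    simp only
    rw [← Complex.exp_nat_mul, ← Complex.exp_add, ← e0]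
    congr 1
    push_cast
    ring
  have hqne : ∀ z, q z ≠ 0 := fun z => Complex.exp_ne_zero _
  have hdq : deriv q 0 = -deriv k 0 / 2 := by
    have h1 : HasDerivAt L (deriv L 0) 0 := (hL.differentiableAt hb).hasDerivAt
    have h2 : HasDerivAt q (Complex.exp (-(L 0 - L 0) / 2) * (-(deriv L 0) / 2)) 0 :=
      (((h1.sub_const (L 0)).neg).div_const 2).cexp
    have h3 : HasDerivAt (fun z => Complex.exp (L z)) (Complex.exp (L 0) * deriv L 0) 0 := h1.cexp
    have h4 : (fun z => Complex.exp (L z)) =ᶠ[𝓝 0] k := by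
      filter_upwards [hb] with z hz
      exact hL2 z hz
    have h5 := h3.congr_of_eventuallyEq h4.symm
    rw [h5.deriv, h2.deriv, hL2 0 h0, hk0, sub_self, neg_zero, zero_div, Complex.exp_zero]
    ring
  -- the function `φ`
  set p : ℂ → ℂ := dslope q 0 with hp
  have hpd : DifferentiableOn ℂ p (ball 0 1) := (Complex.differentiableOn_dslope hb).2 hqd
  have hqp : ∀ w, q w = 1 + w * p w := by
    intro w
    have := sub_smul_dslope q 0 w
    rw [hq0, sub_zero, smul_eq_mul] at this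
    rw [hp, this]
    ring
  have hsq : ∀ z ∈ ball (0 : ℂ) 1, z ^ 2 ∈ ball (0 : ℂ) 1 := by
    intro z hz
    rw [mem_ball_zero_iff] at *
    rw [norm_pow]
    have := norm_nonneg z
    nlinarith
  set φ : ℂ → ℂ := fun z => z * p (z ^ 2) with hφ
  have hφd : DifferentiableOn ℂ φ (ball 0 1) :=
    differentiableOn_id.mul (hpd.comp (differentiableOn_id.pow 2) hsq)
  have hG : ∀ z : ℂ, z ≠ 0 → GG φ z = z⁻¹ * q (z ^ 2) := by
    intro z hz
    rw [GG, hφ, hqp]
    field_simp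
  have hinj : InjOn (GG φ) PD := by
    intro z hz w hw h
    have hz0 : z ≠ 0 := norm_pos_iff.1 hz.1
    have hw0 : w ≠ 0 := norm_pos_iff.1 hw.1
    have hzb : z ∈ ball (0 : ℂ) 1 := mem_ball_zero_iff.2 hz.2
    have hwb : w ∈ ball (0 : ℂ) 1 := mem_ball_zero_iff.2 hw.2
    rw [hG z hz0, hG w hw0] at h
    have h1 : z ^ 2 * k (z ^ 2) = w ^ 2 * k (w ^ 2) := by
      have e1 := hqk _ (hsq z hzb)
      have e2 := hqk _ (hsq w hwb)
      have e3 : (z⁻¹ * q (z ^ 2)) ^ 2 = (w⁻¹ * q (w ^ 2)) ^ 2 := by rw [h]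
      have kz := hne _ (hsq z hzb)
      have kw := hne _ (hsq w hwb)
      have e4 : (z ^ 2 * k (z ^ 2)) * (z⁻¹ * q (z ^ 2)) ^ 2 = 1 := by
        calc _ = (z ^ 2 * z⁻¹ ^ 2) * (q (z ^ 2) ^ 2 * k (z ^ 2)) := by ring
          _ = 1 := by rw [e1, ← mul_pow, mul_inv_cancel₀ hz0]; ring
      have e5 : (w ^ 2 * k (w ^ 2)) * (w⁻¹ * q (w ^ 2)) ^ 2 = 1 := by
        calc _ = (w ^ 2 * w⁻¹ ^ 2) * (q (w ^ 2) ^ 2 * k (w ^ 2)) := by ring
          _ = 1 := by rw [e2, ← mul_pow, mul_inv_cancel₀ hw0]; ring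
      rw [e3] at e4
      have hne3 : (w⁻¹ * q (w ^ 2)) ^ 2 ≠ 0 := by
        intro h'
        rw [h', mul_zero] at e5
        exact zero_ne_one e5
      exact mul_right_cancel₀ hne3 (e4.trans e5.symm)
    have h2 : z ^ 2 = w ^ 2 := hi (hsq z hzb) (hsq w hwb) h1
    rw [h2] at h
    have h3 := mul_right_cancel₀ (hqne (w ^ 2)) h
    exact inv_injective h3
  have harea := area_thm hφd hinj
  have hdφ : deriv φ 0 = p 0 := by
    have h1 : HasDerivAt p (deriv p 0) ((0 : ℂ) ^ 2) := by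
      rw [zero_pow (by norm_num)]
      exact (hpd.differentiableAt hb).hasDerivAt
    have h2 : HasDerivAt (fun z : ℂ => z ^ 2) (2 * (0 : ℂ) ^ (2 - 1)) 0 := by
      simpa using hasDerivAt_pow 2 (0 : ℂ)
    have h3 : HasDerivAt (fun z : ℂ => p (z ^ 2)) (deriv p 0 * (2 * (0 : ℂ) ^ (2 - 1))) 0 :=
      HasDerivAt.comp (0 : ℂ) h1 h2
    have h4 : HasDerivAt φ (1 * p (0 ^ 2) + 0 * (deriv p 0 * (2 * (0 : ℂ) ^ (2 - 1)))) 0 :=
      (hasDerivAt_id (0 : ℂ)).mul h3
    rw [h4.deriv, zero_pow (by norm_num)]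
    ring
  rw [hdφ, hp, dslope_same, hdq, norm_div, norm_neg] at harea
  have : ‖(2 : ℂ)‖ = 2 := by simp
  rw [this, div_le_one (by norm_num)] at harea
  exact harea

/-- **Koebe quarter theorem.** -/
theorem koebe {f : ℂ → ℂ} (hf : DifferentiableOn ℂ f (ball 0 1)) (hi : InjOn f (ball 0 1)) {w : ℂ}
    (hw : w ∉ f '' ball 0 1) : ‖deriv f 0‖ ≤ 4 * ‖w - f 0‖ := by
  have h0 : (0 : ℂ) ∈ ball (0 : ℂ) 1 := mem_ball_self one_pos
  have hb : ball (0 : ℂ) 1 ∈ 𝓝 (0 : ℂ) := ball_mem_nhds 0 one_pos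
  set c := deriv f 0 with hc
  have hc0 : c ≠ 0 := Pool.Agent.H83.Lo.deriv_ne_zero isOpen_ball hf hi h0
  set W : ℂ := (w - f 0) / c with hW
  have hW0 : W ≠ 0 := by
    intro h
    rw [hW, div_eq_zero_iff] at h
    rcases h with h | h
    · exact hw ⟨0, h0, (sub_eq_zero.1 h).symm⟩
    · exact hc0 h
  set k : ℂ → ℂ := fun z => dslope f 0 z / c with hk
  have hkd : DifferentiableOn ℂ k (ball 0 1) := ((Complex.differentiableOn_dslope hb).2 hf).div_const c
  have hk0 : k 0 = 1 := by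
    rw [hk]
    simp only
    rw [dslope_same, ← hc, div_self hc0]
  have hzk : ∀ z, z * k z = (f z - f 0) / c := by
    intro z
    have := sub_smul_dslope f 0 z
    rw [sub_zero, smul_eq_mul] at this
    rw [hk, ← this]
    ring
  clear_value k
  have hki : InjOn (fun z => z * k z) (ball 0 1) := by
    intro z hz z' hz' h
    simp only [hzk] at h
    apply hi hz hz'
    have h2 := (div_left_inj' hc0).1 h
    exact sub_left_injective h2
  have hB1 := bieberbach hkd hk0 hki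
  have hden : ∀ z ∈ ball (0 : ℂ) 1, 1 - z * k z / W ≠ 0 := by
    intro z hz h
    have h1 : z * k z / W = 1 := (sub_eq_zero.1 h).symm
    rw [div_eq_one_iff_eq hW0, hzk, hW] at h1
    have h2 := (div_left_inj' hc0).1 h1
    exact hw ⟨z, hz, sub_left_injective h2⟩
  set k2 : ℂ → ℂ := fun z => k z / (1 - z * k z / W) with hk2
  have hdend : DifferentiableOn ℂ (fun z => 1 - z * k z / W) (ball 0 1) :=
    (differentiableOn_const _).sub ((differentiableOn_id.mul hkd).div_const W)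
  have hk2d : DifferentiableOn ℂ k2 (ball 0 1) := hkd.div hdend hden
  have hk20 : k2 0 = 1 := by rw [hk2]; simp [hk0]
  have hk2i : InjOn (fun z => z * k2 z) (ball 0 1) := by
    intro z hz z' hz' h
    apply hki hz hz'
    have d1 := hden z hz
    have d2 := hden z' hz'
    have h' : z * (k z / (1 - z * k z / W)) = z' * (k z' / (1 - z' * k z' / W)) := h
    rw [← mul_div_assoc, ← mul_div_assoc, div_eq_div_iff d1 d2] at h'
    have e1 : z * k z * (1 - z' * k z' / W) = z * k z - z * k z * (z' * k z') / W := by ring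
    have e2 : z' * k z' * (1 - z * k z / W) = z' * k z' - z * k z * (z' * k z') / W := by ring
    rw [e1, e2] at h'
    exact sub_left_injective h'
  have hB2 := bieberbach hk2d hk20 hk2i
  have hder : deriv k2 0 = deriv k 0 + 1 / W := by
    have h1 : HasDerivAt k (deriv k 0) 0 := (hkd.differentiableAt hb).hasDerivAt
    have h2 : HasDerivAt (fun z => 1 - z * k z / W) (-((1 * k 0 + 0 * deriv k 0) / W)) 0 := by
      have := ((((hasDerivAt_id (0 : ℂ)).mul h1).div_const W).const_sub 1)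
      exact this
    have h3 := h1.div h2 (hden 0 h0)
    have h4 : HasDerivAt k2 ((deriv k 0 * (1 - 0 * k 0 / W) - k 0 * (-((1 * k 0 + 0 * deriv k 0) / W))) /
      (1 - 0 * k 0 / W) ^ 2) 0 := h3
    rw [h4.deriv, hk0]
    simp
  rw [hder] at hB2
  have h5 : ‖1 / W‖ ≤ 4 := by
    calc ‖1 / W‖ = ‖(deriv k 0 + 1 / W) - deriv k 0‖ := by congr 1; ring
      _ ≤ ‖deriv k 0 + 1 / W‖ + ‖deriv k 0‖ := norm_sub_le _ _
      _ ≤ 4 := by linarith
  rw [one_div, norm_inv, hW, norm_div, inv_div, div_le_iff₀ (norm_pos_iff.2 (by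
    intro h
    apply hW0
    rw [hW, h, zero_div]))] at h5
  exact h5

end Pool.Agent.H84.SM
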