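import Mathlib
import Pool.Agent.H93.SM.Iface2
import Pool.Agent.H84.SM.Koebe
import Pool.Agent.H11.UC.A1
import Pool.Agent.H21.UC.Cell

set_option autoImplicit false

/-!
# MP_2e6055, module SM: charts at the same point (CU), the quantities of a state (CH)
-/

namespace Pool.Agent.H84.SM

open Metric Set Filter Topology
open Pool.Agent.H7.UC Pool.Agent.H93.SM Pool.Agent.H74.Tri

/-- the inverse of a chart -/
noncomputable def cinv (φ : ℂ → ℂ) : ℂ → ℂ := Function.invFunOn φ (ball 0 1)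

lemma cinv_left {D : Set ℂ} {φ : ℂ → ℂ} (h : DiscChart D φ) {w : ℂ} (hw : w ∈ ball (0 : ℂ) 1) :
    cinv φ (φ w) = w :=
  (h.inj.mono ball_subset_closedBall).leftInvOn_invFunOn hw

lemma cinv_mem {D : Set ℂ} {φ : ℂ → ℂ} (h : DiscChart D φ) {x : ℂ} (hx : x ∈ D) :
    cinv φ x ∈ ball (0 : ℂ) 1 := by
  rw [← h.img] at hx
  exact Function.invFunOn_mem hx

lemma cinv_right {D : Set ℂ} {φ : ℂ → ℂ} (h : DiscChart D φ) {x : ℂ} (hx : x ∈ D) :
    φ (cinv φ x) = x := by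
  rw [← h.img] at hx
  exact Function.invFunOn_eq hx

lemma cinv_diff {D : Set ℂ} {φ : ℂ → ℂ} (h : DiscChart D φ) : DifferentiableOn ℂ (cinv φ) D := by
  rw [← h.img]
  exact Pool.Agent.H83.Lo.differentiableOn_inv isOpen_ball h.diff
    (h.inj.mono ball_subset_closedBall) (fun z hz => cinv_left h hz)

lemma chart_open {D : Set ℂ} {φ : ℂ → ℂ} (h : DiscChart D φ) : IsOpen D := by
  rw [← h.img]
  exact Pool.Agent.H83.Lo.isOpen_image isOpen_ball h.diff (h.inj.mono ball_subset_closedBall)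

lemma chart_deriv_ne {D : Set ℂ} {φ : ℂ → ℂ} (h : DiscChart D φ) : deriv φ 0 ≠ 0 :=
  Pool.Agent.H83.Lo.deriv_ne_zero isOpen_ball h.diff (h.inj.mono ball_subset_closedBall)
    (mem_ball_self one_pos)

/-- the transition map -/
lemma trans_le {D : Set ℂ} {φ ψ : ℂ → ℂ} (hφ : DiscChart D φ) (hψ : DiscChart D ψ)
    (h0 : φ 0 = ψ 0) {w : ℂ} (hw : w ∈ ball (0 : ℂ) 1) : ‖cinv φ (ψ w)‖ ≤ ‖w‖ := by
  have hm : MapsTo ψ (ball 0 1) D := fun x hx => hψ.img ▸ mem_image_of_mem ψ hx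
  have hd : DifferentiableOn ℂ (fun w => cinv φ (ψ w)) (ball 0 1) :=
    (cinv_diff hφ).comp hψ.diff hm
  have hmaps : MapsTo (fun w => cinv φ (ψ w)) (ball 0 1) (closedBall 0 1) :=
    fun x hx => ball_subset_closedBall (cinv_mem hφ (hm hx))
  have hz : (fun w => cinv φ (ψ w)) 0 = 0 := by
    simp only
    rw [← h0, cinv_left hφ (mem_ball_self one_pos)]
  exact Complex.norm_le_norm_of_mapsTo_ball hd hmaps hz (mem_ball_zero_iff.1 hw)

theorem cu : CU := by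
  intro D φ ψ hφ hψ h0
  refine ⟨chart_deriv_ne hφ, ?_⟩
  have hb0 : (0 : ℂ) ∈ ball (0 : ℂ) 1 := mem_ball_self one_pos
  have hm : MapsTo ψ (ball 0 1) D := fun x hx => hψ.img ▸ mem_image_of_mem ψ hx
  have hd : DifferentiableOn ℂ (fun w => cinv φ (ψ w)) (ball 0 1) :=
    (cinv_diff hφ).comp hψ.diff hm
  have hz : (fun w => cinv φ (ψ w)) 0 = 0 := by
    simp only
    rw [← h0, cinv_left hφ hb0]
  have hmaps : MapsTo (fun w => cinv φ (ψ w)) (ball 0 1)
      (closedBall ((fun w => cinv φ (ψ w)) 0) 1) := by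
    rw [hz]
    exact fun x hx => ball_subset_closedBall (cinv_mem hφ (hm hx))
  -- the norm is preserved
  have hnorm : ∀ w ∈ ball (0 : ℂ) 1, ‖cinv φ (ψ w)‖ = ‖w‖ := by
    intro w hw
    apply le_antisymm (trans_le hφ hψ h0 hw)
    have h1 := trans_le hψ hφ h0.symm (cinv_mem hφ (hm hw))
    rwa [cinv_right hφ (hm hw), cinv_left hψ hw] at h1
  have hhalf : ((1 / 2 : ℝ) : ℂ) ∈ ball (0 : ℂ) 1 := by
    rw [mem_ball_zero_iff, Complex.norm_real]
    norm_num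
  have hne : ((1 / 2 : ℝ) : ℂ) ≠ 0 := by norm_num
  obtain ⟨c, hc, hT⟩ := Complex.affine_of_mapsTo_ball_of_exists_norm_dslope_eq_div' hd hmaps
    ⟨_, hhalf, by
      have hz' : cinv φ (ψ 0) = 0 := hz
      rw [dslope_of_ne _ hne, slope_def_field, hz', sub_zero, sub_zero, norm_div, hnorm _ hhalf,
        div_self (norm_ne_zero_iff.2 hne), div_one]⟩
  rw [div_one] at hc
  have hT' : ∀ w ∈ ball (0 : ℂ) 1, ψ w = φ (c * w) := by
    intro w hw
    have h1 := hT hw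
    simp only at h1
    rw [← h0, cinv_left hφ hb0, zero_add, sub_zero, smul_eq_mul, mul_comm] at h1
    rw [← h1, cinv_right hφ (hm hw)]
  have hmc : MapsTo (fun w : ℂ => c * w) (closedBall 0 1) (closedBall 0 1) := by
    intro w hw
    rw [mem_closedBall_zero_iff] at *
    rw [norm_mul, hc, one_mul]
    exact hw
  refine ⟨c, hc, ?_, ?_⟩
  · have h2 : EqOn ψ (fun w => φ (c * w)) (closedBall 0 1) := by
      apply EqOn.of_subset_closure (s := ball 0 1) (fun w hw => hT' w hw) hψ.cont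
      · exact hφ.cont.comp (continuous_const.mul continuous_id).continuousOn hmc
      · exact ball_subset_closedBall
      · rw [closure_ball _ one_ne_zero]
    exact h2
  · have hbn : ball (0 : ℂ) 1 ∈ 𝓝 (0 : ℂ) := ball_mem_nhds 0 one_pos
    have h3 : HasDerivAt φ (deriv φ 0) (c * 0) := by
      rw [mul_zero]
      exact (hφ.diff.differentiableAt hbn).hasDerivAt
    have h4 : HasDerivAt (fun w : ℂ => c * w) (c * 1) 0 := (hasDerivAt_id (0 : ℂ)).const_mul c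
    have h5 : HasDerivAt (fun w : ℂ => φ (c * w)) (deriv φ 0 * (c * 1)) 0 :=
      HasDerivAt.comp (0 : ℂ) h3 h4
    have h6 : HasDerivAt ψ (deriv φ 0 * (c * 1)) 0 := by
      apply h5.congr_of_eventuallyEq
      filter_upwards [hbn] with w hw
      exact hT' w hw
    rw [h6.deriv]
    ring

/-- the ball around the centre of a cell -/
lemma ball_sub_reg {U : Finset Fc} {z : Fc} (hz : z ∈ U) : ball (ctr z) (1 / 2) ⊆ reg U := by
  have h1 : ball (ctr z) (1 / 2) ⊆ ⋃ f ∈ U, cell f :=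
    (Pool.Agent.H21.UC.ball_sub_cell z).trans (subset_biUnion_of_mem (u := fun f => cell f) hz)
  exact interior_maximal h1 isOpen_ball

lemma compl_nonempty (U : Finset Fc) : (reg U)ᶜ.Nonempty := by
  rw [nonempty_compl]
  intro h
  have h1 := Pool.Agent.H11.UC.isBounded_reg U
  rw [h] at h1
  exact NormedSpace.unbounded_univ ℝ ℂ h1

lemma ball_dst_sub (U : Finset Fc) (z : Fc) : ball (ctr z) (dst U z) ⊆ reg U := by
  intro x hx
  by_contra hn
  have h1 : infDist (ctr z) (reg U)ᶜ ≤ dist (ctr z) x := infDist_le_dist_of_mem hn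
  rw [mem_ball, dist_comm] at hx
  exact absurd h1 (not_le.2 hx)

lemma half_le_dst {U : Finset Fc} {z : Fc} (hz : z ∈ U) : 1 / 2 ≤ dst U z := by
  unfold dst
  rw [le_infDist (compl_nonempty U)]
  intro y hy
  by_contra hlt
  rw [not_le] at hlt
  exact hy (ball_sub_reg hz (by rw [mem_ball, dist_comm]; exact hlt))

lemma dst_le_deriv {U : Finset Fc} {z : Fc} (hz : z ∈ U) {φ : ℂ → ℂ} (h : DiscChart (reg U) φ)
    (h0 : φ 0 = ctr z) : dst U z ≤ ‖deriv φ 0‖ := by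
  have hd0 : 0 < dst U z := lt_of_lt_of_le (by norm_num) (half_le_dst hz)
  have hb0 : (0 : ℂ) ∈ ball (0 : ℂ) 1 := mem_ball_self one_pos
  have hbn : ball (0 : ℂ) 1 ∈ 𝓝 (0 : ℂ) := ball_mem_nhds 0 one_pos
  have hg0 : cinv φ (ctr z) = 0 := by rw [← h0, cinv_left h hb0]
  have hzr : ctr z ∈ reg U := ball_dst_sub U z (mem_ball_self hd0)
  have h1 : ‖deriv (cinv φ) (ctr z)‖ ≤ 1 / dst U z := by
    apply Complex.norm_deriv_le_div_of_mapsTo_ball ((cinv_diff h).mono (ball_dst_sub U z)) _ hd0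
    rw [hg0]
    exact fun x hx => ball_subset_closedBall (cinv_mem h (ball_dst_sub U z hx))
  have h2 : HasDerivAt (cinv φ) (deriv (cinv φ) (ctr z)) (φ 0) := by
    rw [h0]
    exact ((cinv_diff h).differentiableAt ((chart_open h).mem_nhds hzr)).hasDerivAt
  have h3 : HasDerivAt (fun w => cinv φ (φ w)) (deriv (cinv φ) (ctr z) * deriv φ 0) 0 :=
    HasDerivAt.comp (0 : ℂ) h2 (h.diff.differentiableAt hbn).hasDerivAt
  have h4 : HasDerivAt (fun w => cinv φ (φ w)) 1 0 := by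
    apply (hasDerivAt_id (0 : ℂ)).congr_of_eventuallyEq
    filter_upwards [hbn] with w hw
    exact cinv_left h hw
  have h5 : ‖deriv (cinv φ) (ctr z)‖ * ‖deriv φ 0‖ = 1 := by
    rw [← norm_mul, h3.unique h4, norm_one]
  have h6 : 1 ≤ 1 / dst U z * ‖deriv φ 0‖ := by
    calc (1 : ℝ) = ‖deriv (cinv φ) (ctr z)‖ * ‖deriv φ 0‖ := h5.symm
      _ ≤ _ := mul_le_mul_of_nonneg_right h1 (norm_nonneg _)
  rw [one_div, ← div_eq_inv_mul, le_div_iff₀ hd0, one_mul] at h6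
  exact h6

lemma deriv_le_dst {U : Finset Fc} {z : Fc} {φ : ℂ → ℂ} (h : DiscChart (reg U) φ)
    (h0 : φ 0 = ctr z) : ‖deriv φ 0‖ ≤ 4 * dst U z := by
  obtain ⟨y, hy, hy2⟩ := (chart_open h).isClosed_compl.exists_infDist_eq_dist (compl_nonempty U)
    (ctr z)
  have h1 := koebe h.diff (h.inj.mono ball_subset_closedBall) (w := y) (by rw [h.img]; exact hy)
  have h2 : dst U z = ‖y - φ 0‖ := by
    unfold dst
    rw [hy2, h0, dist_comm, dist_eq_norm]
  rw [h2]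
  exact h1

lemma crad_eq {U : Finset Fc} {z : Fc} {φ : ℂ → ℂ} (h : DiscChart (reg U) φ)
    (h0 : φ 0 = ctr z) : crad U z = ‖deriv φ 0‖ := by
  unfold crad
  have hex : ∃ φ, DiscChart (reg U) φ ∧ φ 0 = ctr z := ⟨φ, h, h0⟩
  rw [dif_pos hex]
  obtain ⟨h1, h2⟩ := hex.choose_spec
  obtain ⟨-, c, hc, -, hd⟩ := cu (reg U) φ _ h h1 (h0.trans h2.symm)
  rw [hd, norm_mul, hc, one_mul]

lemma snv_eq {U : Finset Fc} {z : Fc} {φ : ℂ → ℂ} (h : DiscChart (reg U) φ)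
    (h0 : φ 0 = ctr z) {v w : Vx} {p q : ℂ} (hp : ‖p‖ = 1) (hq : ‖q‖ = 1) (hv : φ p = pv v)
    (hw : φ q = pv w) : snv U z v w = ‖p - q‖ / 2 := by
  unfold snv
  have hex : ∃ t, PosP U z v w t := ⟨(φ, p, q), h, h0, hp, hq, hv, hw⟩
  rw [dif_pos hex]
  obtain ⟨h1, h2, h3, h4, h5, h6⟩ := hex.choose_spec
  obtain ⟨-, c, hc, hT, -⟩ := cu (reg U) φ _ h h1 (h0.trans h2.symm)
  have hb : ∀ x : ℂ, ‖x‖ = 1 → x ∈ closedBall (0 : ℂ) 1 := fun x hx => by
    rw [mem_closedBall_zero_iff, hx]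
  have hcb : ∀ x : ℂ, ‖x‖ = 1 → c * x ∈ closedBall (0 : ℂ) 1 := fun x hx => by
    rw [mem_closedBall_zero_iff, norm_mul, hc, hx, one_mul]
  have e1 : c * hex.choose.2.1 = p := by
    apply h.inj (hcb _ h3) (hb p hp)
    rw [← hT _ (hb _ h3), h5, hv]
  have e2 : c * hex.choose.2.2 = q := by
    apply h.inj (hcb _ h4) (hb q hq)
    rw [← hT _ (hb _ h4), h6, hw]
  rw [← e1, ← e2, ← mul_sub, norm_mul, hc, one_mul]

lemma bd_vertex {U : Finset Fc} {φ : ℂ → ℂ} (h : DiscChart (reg U) φ) {v : Vx} {k : Fin 3}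
    (hv : inV U v) (hk : fc v k ∉ U) : ∃ p, ‖p‖ = 1 ∧ φ p = pv v := by
  obtain ⟨k', hk'⟩ := hv
  have hf : pv v ∈ frontier (reg U) :=
    Pool.Agent.H11.UC.mem_frontier_reg.2 ⟨⟨_, hk', Pool.Agent.H21.UC.pv_mem v k'⟩,
      ⟨_, hk, Pool.Agent.H21.UC.pv_mem v k⟩⟩
  obtain ⟨p, hp, hp2⟩ := Pool.Agent.H21.UC.chart_surj h (frontier_subset_closure hf)
  refine ⟨p, ?_, hp2⟩
  rw [← hp2] at hf
  exact (Pool.Agent.H21.UC.chart_circle h (chart_open h) hp).1 hf

theorem ch : CH := by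
  intro U z hU hz
  have hex : ∃ φ, DiscChart (reg U) φ ∧ φ 0 = ctr z :=
    (Pool.Agent.H11.UC.a1 U hU).1 (ctr z) (ball_sub_reg hz (mem_ball_self (by norm_num)))
  obtain ⟨φ0, h1, h2⟩ := id hex
  refine ⟨hex, ?_, ball_dst_sub U z, half_le_dst hz, ?_, ?_⟩
  · intro φ hφ h0
    exact ⟨crad_eq hφ h0, fun v w p q hp hq hv hw => snv_eq hφ h0 hp hq hv hw,
      fun v k hv hk => bd_vertex hφ hv hk⟩
  · rw [crad_eq h1 h2]
    exact dst_le_deriv hz h1 h2
  · rw [crad_eq h1 h2]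
    exact deriv_le_dst h1 h2

end Pool.Agent.H84.SM
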