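import Pool.Agent.H93.SM.Iface
import Pool.Agent.H21.UC.Cell

set_option autoImplicit false

/-!
# Removing a face: the region of the remaining component (module TL)
-/

namespace Pool.Agent.H84.SM

open Metric Set Filter Topology Pool.Agent.H7.UC Pool.Agent.H74.Tri Pool.Agent.H93.SM
open Pool.Agent.H21.UC (mem_cell cell_closed cell_norm cell_convex)

/-- two closed hexagons that meet are equal or adjacent -/
theorem adj_of_cell {f g : Fc} {z : ℂ} (hf : z ∈ cell f) (hg : z ∈ cell g) : f = g ∨ adjF f g := by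
  obtain ⟨a1, a2, a3⟩ := mem_cell.1 hf
  obtain ⟨b1, b2, b3⟩ := mem_cell.1 hg
  rw [abs_le] at a1 a2 a3 b1 b2 b3
  have c1 : -2 ≤ 2 * (g.1 - f.1) + (g.2 - f.2) ∧ 2 * (g.1 - f.1) + (g.2 - f.2) ≤ 2 := by
    constructor
    · have : (-2 : ℝ) ≤ ((2 * (g.1 - f.1) + (g.2 - f.2) : ℤ) : ℝ) := by push_cast; linarith
      exact_mod_cast this
    · have : ((2 * (g.1 - f.1) + (g.2 - f.2) : ℤ) : ℝ) ≤ 2 := by push_cast; linarith
      exact_mod_cast this
  have c2 : -2 ≤ (g.1 - f.1) + 2 * (g.2 - f.2) ∧ (g.1 - f.1) + 2 * (g.2 - f.2) ≤ 2 := by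
    constructor
    · have : (-2 : ℝ) ≤ (((g.1 - f.1) + 2 * (g.2 - f.2) : ℤ) : ℝ) := by push_cast; linarith
      exact_mod_cast this
    · have : (((g.1 - f.1) + 2 * (g.2 - f.2) : ℤ) : ℝ) ≤ 2 := by push_cast; linarith
      exact_mod_cast this
  have c3 : -2 ≤ (g.2 - f.2) - (g.1 - f.1) ∧ (g.2 - f.2) - (g.1 - f.1) ≤ 2 := by
    constructor
    · have : (-2 : ℝ) ≤ (((g.2 - f.2) - (g.1 - f.1) : ℤ) : ℝ) := by push_cast; linarith
      exact_mod_cast this
    · have : (((g.2 - f.2) - (g.1 - f.1) : ℤ) : ℝ) ≤ 2 := by push_cast; linarith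
      exact_mod_cast this
  rw [adjF_iff, Prod.ext_iff]
  omega

theorem ctr_mem_cell (f : Fc) : ctr f ∈ cell f := by
  intro k
  simp

/-- the union of the cells is closed -/
theorem cells_closed (U : Finset Fc) : IsClosed (⋃ f ∈ U, cell f) := by
  have h : (⋃ f ∈ U, cell f) = ⋃ f ∈ (U : Set Fc), cell f := by simp
  rw [h]
  exact U.finite_toSet.isClosed_biUnion (fun f _ => cell_closed f)

theorem reg_mono {U V : Finset Fc} (h : U ⊆ V) : reg U ⊆ reg V :=
  interior_mono (iUnion₂_subset fun f hf => subset_iUnion₂_of_subset f (h hf) subset_rfl)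

theorem reg_subset_cells (U : Finset Fc) : reg U ⊆ ⋃ f ∈ U, cell f := interior_subset

/-- a connected set in the region of `W` that contains the centre of a face of the component stays
in the region of the component -/
theorem subset_reg_comp {W : Finset Fc} {z : Fc} (hz : z ∈ W) {Q : Set ℂ} (hQ : IsPreconnected Q)
    (hQW : Q ⊆ reg W) (hc : ctr z ∈ Q) : Q ⊆ reg (comp W z) := by
  classical
  set A : Set ℂ := ⋃ f ∈ comp W z, cell f with hA
  set B : Set ℂ := ⋃ f ∈ W \ comp W z, cell f with hB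
  have hAc : IsClosed A := cells_closed _
  have hBc : IsClosed B := cells_closed _
  have hcov : (⋃ f ∈ W, cell f) ⊆ A ∪ B := by
    intro x hx
    simp only [mem_iUnion, exists_prop] at hx
    obtain ⟨f, hf, hxf⟩ := hx
    by_cases h : f ∈ comp W z
    · left
      exact mem_biUnion h hxf
    · right
      have h2 : f ∈ W \ comp W z := Finset.mem_sdiff.2 ⟨hf, h⟩
      exact mem_biUnion h2 hxf
  have hdisj : A ∩ B = ∅ := by
    rw [Set.eq_empty_iff_forall_notMem]
    rintro x ⟨hxA, hxB⟩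
    simp only [hA, hB, mem_iUnion, exists_prop] at hxA hxB
    obtain ⟨f, hf, hxf⟩ := hxA
    obtain ⟨g, hg, hxg⟩ := hxB
    rw [Finset.mem_sdiff] at hg
    rcases adj_of_cell hxf hxg with rfl | h
    · exact hg.2 hf
    · exact hg.2 (comp_adj hf hg.1 h)
  have hQA : Q ⊆ A := by
    have h1 : Q ⊆ A ∪ B := fun x hx => hcov (reg_subset_cells W (hQW hx))
    have h2 : (Q ∩ A).Nonempty := ⟨ctr z, hc, mem_biUnion (mem_comp_self hz) (ctr_mem_cell z)⟩
    by_contra hcon
    obtain ⟨x, hxQ, hxA⟩ := not_subset.1 hcon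
    have h3 : (Q ∩ B).Nonempty := ⟨x, hxQ, (h1 hxQ).resolve_left hxA⟩
    have h4 := (isPreconnected_closed_iff.1 hQ) A B hAc hBc h1 h2 h3
    rw [hdisj] at h4
    simp at h4
  have hopen : IsOpen (reg W \ B) := isOpen_interior.sdiff hBc
  have hsub : reg W \ B ⊆ A := by
    rintro x ⟨hx1, hx2⟩
    exact (hcov (reg_subset_cells W hx1)).resolve_right hx2
  intro x hx
  refine interior_maximal hsub hopen ⟨hQW hx, ?_⟩
  intro hxB
  have : x ∈ A ∩ B := ⟨hQA hx, hxB⟩
  rw [hdisj] at this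
  exact this

/-- **TL.** -/
theorem tl : TL := by
  classical
  intro U z h _ hz hh hne
  have hsub : comp (U \ {h}) z ⊆ U := (comp_sub _ _).trans Finset.sdiff_subset
  have hzW : z ∈ U \ {h} := Finset.mem_sdiff.2 ⟨hz, by simpa using hne.symm⟩
  refine ⟨reg_mono hsub, closure_mono (reg_mono hsub), ?_⟩
  intro Q hQ hQU hdis hc
  refine subset_reg_comp hzW hQ ?_ hc
  intro x hx
  have hopen : IsOpen (reg U \ cell h) := isOpen_interior.sdiff (cell_closed h)
  have hsub2 : reg U \ cell h ⊆ ⋃ f ∈ U \ {h}, cell f := by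
    rintro y ⟨hy1, hy2⟩
    have hy3 := reg_subset_cells U hy1
    simp only [mem_iUnion, exists_prop] at hy3 ⊢
    obtain ⟨f, hf, hyf⟩ := hy3
    refine ⟨f, Finset.mem_sdiff.2 ⟨hf, ?_⟩, hyf⟩
    rw [Finset.mem_singleton]
    rintro rfl
    exact hy2 hyf
  exact interior_maximal hsub2 hopen ⟨hQU hx, fun hxh => Set.disjoint_left.1 hdis hx hxh⟩

end Pool.Agent.H84.SM
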